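import Pool.Agent.E8helper47.OD.Large

/-!
# The edge lemma for pairs and for complements of pairs, all edges with at least five vertices
-/

set_option autoImplicit false

namespace Pool.Agent.P8H23.OR

open Finset
open Pool.Agent.E8helper47.OD (EdgeProp ext_pair extend count)

/-- if two pairs share exactly one point then their images are equal or disjoint -/
theorem adj {r : ℕ} (c : Finset (Fin r) → Finset (Fin r)) (hc : ∀ A, (c A).card = 2)
    (hne : ∀ A B : Finset (Fin r), A.card = 2 → B.card = 2 → A ≠ B →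
      (A ∩ B).card ≠ (c A ∩ c B).card) (A B : Finset (Fin r)) (hA : A.card = 2) (hB : B.card = 2)
    (h : (A ∩ B).card = 1) : c A = c B ∨ Disjoint (c A) (c B) := by
  have hAB : A ≠ B := by
    rintro rfl
    rw [inter_self] at h
    omega
  have h1 := hne A B hA hB hAB
  rw [h] at h1
  have h2 : (c A ∩ c B).card ≤ 2 := (card_le_card inter_subset_left).trans (hc A).le
  have h3 : (c A ∩ c B).card = 2 ∨ (c A ∩ c B).card = 0 := by omega
  rcases h3 with h3 | h3
  · left
    have h4 : c A ∩ c B = c A := eq_of_subset_of_card_le inter_subset_left (by rw [h3, hc])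
    have h5 : c A ∩ c B = c B := eq_of_subset_of_card_le inter_subset_right (by rw [h3, hc])
    rw [← h4, h5]
  · right
    rw [disjoint_iff_inter_eq_empty]
    exact card_eq_zero.mp h3

/-- if two pairs are disjoint then their images meet -/
theorem dis {r : ℕ} (c : Finset (Fin r) → Finset (Fin r))
    (hne : ∀ A B : Finset (Fin r), A.card = 2 → B.card = 2 → A ≠ B →
      (A ∩ B).card ≠ (c A ∩ c B).card) (A B : Finset (Fin r)) (hA : A.card = 2) (hB : B.card = 2)
    (h : Disjoint A B) : ¬ Disjoint (c A) (c B) := by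
  intro h2
  have hAB : A ≠ B := by
    rintro rfl
    rw [disjoint_self] at h
    rw [h] at hA
    simp at hA
  apply hne A B hA hB hAB
  rw [disjoint_iff_inter_eq_empty.mp h, disjoint_iff_inter_eq_empty.mp h2]

/-- abstract form of the contradiction: ten pairs in a five-element set -/
theorem core {r : ℕ} (P P' R X4 X5 Y4 Y5 : Finset (Fin r)) (hP : P.card = 2) (hP' : P'.card = 2)
    (hR : R.card = 2) (hPP : Disjoint P P') (hRP : ¬ Disjoint R P) (hRP' : ¬ Disjoint R P')
    (hx1 : X4 = P ∨ Disjoint X4 P) (hx2 : X4 = R ∨ Disjoint X4 R) (hx3 : ¬ Disjoint X4 P')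
    (hx1' : X5 = P ∨ Disjoint X5 P) (hx2' : X5 = R ∨ Disjoint X5 R) (hx3' : ¬ Disjoint X5 P')
    (hy1 : Y4 = P' ∨ Disjoint Y4 P') (hy2 : Y4 = R ∨ Disjoint Y4 R) (hy3 : ¬ Disjoint Y4 P)
    (hy1' : Y5 = P' ∨ Disjoint Y5 P') (hy2' : Y5 = R ∨ Disjoint Y5 R) (hy3' : ¬ Disjoint Y5 P)
    (hX : X4 = X5 ∨ Disjoint X4 X5) (hY : Y4 = Y5 ∨ Disjoint Y4 Y5)
    (h44 : X4 = Y4 ∨ Disjoint X4 Y4) (h45 : ¬ Disjoint X4 Y5) : False := by
  obtain ⟨a, haR, haP⟩ := not_disjoint_iff.mp hRP
  obtain ⟨a', haR', haP'⟩ := not_disjoint_iff.mp hRP'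
  have haa : a ≠ a' := by
    rintro rfl
    exact disjoint_left.mp hPP haP haP'
  -- the second points
  obtain ⟨b, hbP⟩ : ∃ b, P = {a, b} ∧ a ≠ b := by
    obtain ⟨x, y, hxy, rfl⟩ := card_eq_two.mp hP
    rw [mem_insert, mem_singleton] at haP
    rcases haP with rfl | rfl
    · exact ⟨y, rfl, hxy⟩
    · exact ⟨x, pair_comm _ _, hxy.symm⟩
  obtain ⟨b', hbP'⟩ : ∃ b', P' = {a', b'} ∧ a' ≠ b' := by
    obtain ⟨x, y, hxy, rfl⟩ := card_eq_two.mp hP'
    rw [mem_insert, mem_singleton] at haP'
    rcases haP' with rfl | rfl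
    · exact ⟨y, rfl, hxy⟩
    · exact ⟨x, pair_comm _ _, hxy.symm⟩
  -- a set like X4 contains b' and avoids P
  have keyX : ∀ X : Finset (Fin r), (X = P ∨ Disjoint X P) → (X = R ∨ Disjoint X R) →
      ¬ Disjoint X P' → b' ∈ X ∧ Disjoint X P := by
    intro X h1 h2 h3
    have d1 : Disjoint X P := by
      rcases h1 with rfl | h1
      · exact absurd hPP h3
      · exact h1
    have d2 : Disjoint X R := by
      rcases h2 with rfl | h2
      · exact absurd d1 hRP
      · exact h2
    obtain ⟨z, hzX, hzP'⟩ := not_disjoint_iff.mp h3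
    rw [hbP'.1, mem_insert, mem_singleton] at hzP'
    rcases hzP' with rfl | rfl
    · exact absurd haR' (disjoint_left.mp d2 hzX)
    · exact ⟨hzX, d1⟩
  have keyY : ∀ X : Finset (Fin r), (X = P' ∨ Disjoint X P') → (X = R ∨ Disjoint X R) →
      ¬ Disjoint X P → b ∈ X := by
    intro X h1 h2 h3
    have d1 : Disjoint X P' := by
      rcases h1 with rfl | h1
      · exact absurd hPP.symm h3
      · exact h1
    have d2 : Disjoint X R := by
      rcases h2 with rfl | h2
      · exact absurd d1 hRP'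
      · exact h2
    obtain ⟨z, hzX, hzP⟩ := not_disjoint_iff.mp h3
    rw [hbP.1, mem_insert, mem_singleton] at hzP
    rcases hzP with rfl | rfl
    · exact absurd haR (disjoint_left.mp d2 hzX)
    · exact hzX
  obtain ⟨x4, dx4⟩ := keyX X4 hx1 hx2 hx3
  obtain ⟨x5, dx5⟩ := keyX X5 hx1' hx2' hx3'
  have y4 := keyY Y4 hy1 hy2 hy3
  have y5 := keyY Y5 hy1' hy2' hy3'
  have eY : Y4 = Y5 := by
    rcases hY with h | h
    · exact h
    · exact absurd y5 (disjoint_left.mp h y4)
  have e : X4 = Y4 := by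
    rcases h44 with h | h
    · exact h
    · rw [eY] at h
      exact absurd h h45
  have hbX : b ∈ X4 := by rw [e]; exact y4
  have hbPP : b ∈ P := by rw [hbP.1]; simp
  exact disjoint_left.mp dx4 hbX hbPP

/-- **Rigidity for pairs**: a map on the pairs of at least five points such that the images of two different
pairs never have the same intersection size as the pairs is constant. -/
theorem rigid_two {r : ℕ} (hr : 5 ≤ r) (c : Finset (Fin r) → Finset (Fin r))
    (hc : ∀ A, (c A).card = 2)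
    (hne : ∀ A B : Finset (Fin r), A.card = 2 → B.card = 2 → A ≠ B →
      (A ∩ B).card ≠ (c A ∩ c B).card) :
    ∃ P : Finset (Fin r), ∀ A : Finset (Fin r), A.card = 2 → c A = P := by
  classical
  have star : ∀ x y z : Fin r, x ≠ y → x ≠ z → y ≠ z → c {x, y} = c {x, z} := by
    intro x y z hxy hxz hyz
    by_contra hcon
    obtain ⟨T, hT, hTc⟩ := Finset.exists_subset_card_eq (s := ((univ : Finset (Fin r)) \ {x, y, z}))
      (n := 2) (by
        have h1 : ({x, y, z} : Finset (Fin r)).card ≤ 3 := card_le_three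
        have h2 := le_card_sdiff ({x, y, z} : Finset (Fin r)) (univ : Finset (Fin r))
        rw [card_univ, Fintype.card_fin] at h2
        omega)
    obtain ⟨u, v, huv, rfl⟩ := card_eq_two.mp hTc
    have hu : u ≠ x ∧ u ≠ y ∧ u ≠ z := by
      have h := hT (mem_insert_self u {v})
      simpa [not_or] using h
    have hv : v ≠ x ∧ v ≠ y ∧ v ≠ z := by
      have h := hT (mem_insert_of_mem (mem_singleton_self v))
      simpa [not_or] using h
    obtain ⟨hux, huy, huz⟩ := hu
    obtain ⟨hvx, hvy, hvz⟩ := hv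
    have a1 : ∀ p q s : Fin r, p ≠ q → p ≠ s → q ≠ s →
        c {p, q} = c {p, s} ∨ Disjoint (c {p, q}) (c {p, s}) := by
      intro p q s h1 h2 h3
      apply adj c hc hne _ _ (card_pair h1) (card_pair h2)
      have : ({p, q} : Finset (Fin r)) ∩ {p, s} = {p} := by
        ext t
        simp only [mem_inter, mem_insert, mem_singleton]
        constructor
        · rintro ⟨h4 | h4, h5 | h5⟩
          · exact h4
          · exact h4
          · exact h5
          · exact absurd (h4.symm.trans h5) h3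
        · rintro rfl
          exact ⟨Or.inl rfl, Or.inl rfl⟩
      rw [this, card_singleton]
    have d1 : ∀ p q s t : Fin r, p ≠ q → s ≠ t → p ≠ s → p ≠ t → q ≠ s → q ≠ t →
        ¬ Disjoint (c {p, q}) (c {s, t}) := by
      intro p q s t h1 h2 h3 h4 h5 h6
      apply dis c hne _ _ (card_pair h1) (card_pair h2)
      rw [disjoint_left]
      intro w hw hw'
      simp only [mem_insert, mem_singleton] at hw hw'
      rcases hw with rfl | rfl <;> rcases hw' with rfl | rfl <;> simp_all
    have a2 : ∀ p q s : Fin r, p ≠ q → p ≠ s → q ≠ s →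
        c {q, p} = c {s, p} ∨ Disjoint (c {q, p}) (c {s, p}) := by
      intro p q s h1 h2 h3
      rw [pair_comm q p, pair_comm s p]
      exact a1 p q s h1 h2 h3
    have a3 : ∀ p q s : Fin r, p ≠ q → p ≠ s → q ≠ s →
        c {p, q} = c {s, p} ∨ Disjoint (c {p, q}) (c {s, p}) := by
      intro p q s h1 h2 h3
      rw [pair_comm s p]
      exact a1 p q s h1 h2 h3
    have a4 : ∀ p q s : Fin r, p ≠ q → p ≠ s → q ≠ s →
        c {q, p} = c {p, s} ∨ Disjoint (c {q, p}) (c {p, s}) := by
      intro p q s h1 h2 h3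
      rw [pair_comm q p]
      exact a1 p q s h1 h2 h3
    apply core (c {x, y}) (c {x, z}) (c {u, v}) (c {y, u}) (c {y, v}) (c {z, u}) (c {z, v})
      (hc _) (hc _) (hc _) ((a1 x y z hxy hxz hyz).resolve_left hcon)
      (d1 u v x y huv hxy hux huy hvx hvy) (d1 u v x z huv hxz hux huz hvx hvz)
      (a3 y u x huy.symm hxy.symm hux) (a4 u y v huy huv hvy.symm)
      (d1 y u x z huy.symm hxz hxy.symm hyz hux huz)
      (a3 y v x hvy.symm hxy.symm hvx)
      (by
        rw [pair_comm u v]
        exact a4 v y u hvy huv.symm huy.symm)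
      (d1 y v x z hvy.symm hxz hxy.symm hyz hvx hvz)
      (a3 z u x huz.symm hxz.symm hux) (a4 u z v huz huv hvz.symm)
      (d1 z u x y huz.symm hxy hxz.symm hyz.symm hux huy)
      (a3 z v x hvz.symm hxz.symm hvx)
      (by
        rw [pair_comm u v]
        exact a4 v z u hvz huv.symm huz.symm)
      (d1 z v x y hvz.symm hxy hxz.symm hyz.symm hvx hvy)
      (a1 y u v huy.symm hvy.symm huv) (a1 z u v huz.symm hvz.symm huv)
      (a2 u y z huy huz hyz)
      (d1 y u z v huy.symm hvz.symm hyz hvy.symm huz huv)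
  -- constant
  have hx : ∃ x y z : Fin r, x ≠ y ∧ x ≠ z ∧ y ≠ z :=
    ⟨⟨0, by omega⟩, ⟨1, by omega⟩, ⟨2, by omega⟩, by simp, by simp, by simp⟩
  obtain ⟨x, y, z, hxy, hxz, hyz⟩ := hx
  refine ⟨c {x, y}, ?_⟩
  apply extend c hc hne {x, y, z} (by rw [card_eq_three.mpr ⟨x, y, z, hxy, hxz, hyz, rfl⟩]) _ (hc _)
  intro A hA hAc
  obtain ⟨s, t, hst, rfl⟩ := card_eq_two.mp hAc
  have hs := hA (mem_insert_self s {t})
  have ht := hA (mem_insert_of_mem (mem_singleton_self t))
  simp only [mem_insert, mem_singleton] at hs ht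
  have e1 := star x y z hxy hxz hyz
  have e2 := star y x z hxy.symm hyz hxz
  rw [pair_comm y x] at e2
  rcases hs with rfl | rfl | rfl <;> rcases ht with rfl | rfl | rfl
  · exact absurd rfl hst
  · rfl
  · exact e1.symm
  · rw [pair_comm]
  · exact absurd rfl hst
  · exact e2.symm
  · rw [pair_comm]; exact e1.symm
  · rw [pair_comm]; exact e2.symm
  · exact absurd rfl hst

/-- rigidity gives the edge property, for `p` and for `r - p` -/
theorem edge_of_rigid {r p : ℕ} (hpr : p ≤ r)
    (hR : ∀ c : Finset (Fin r) → Finset (Fin r), (∀ A, (c A).card = p) →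
      (∀ A B : Finset (Fin r), A.card = p → B.card = p → A ≠ B →
        (A ∩ B).card ≠ (c A ∩ c B).card) →
      ∃ P : Finset (Fin r), ∀ A : Finset (Fin r), A.card = p → c A = P) :
    EdgeProp r p ∧ EdgeProp r (r - p) := by
  classical
  have hne : ∀ (c : Finset (Fin r) → Finset (Fin r)), (∀ A, (c A).card = p) →
      (∀ (σ : Equiv.Perm (Fin r)) (A A' : Finset (Fin r)), A.card = p → A'.card = p →
        A.image σ = c A → A'.image σ = c A' → A = A') →
      ∃ P : Finset (Fin r), ∀ A : Finset (Fin r), A.card = p → c A = P := by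
    intro c hc hu
    apply hR c hc
    intro A B hA hB hAB hcard
    obtain ⟨σ, h1, h2⟩ := ext_pair A B (c A) (c B) (by rw [hA, hc]) (by rw [hB, hc]) hcard
    exact hAB (hu σ A B hA hB h1 h2)
  constructor
  · intro 𝓑 c hc hkill
    obtain ⟨h1, h2⟩ := count (by omega) 𝓑 c hc hkill
    exact ⟨h1, hne c hc h2⟩
  · intro 𝓑 c hc hkill
    obtain ⟨h1, h2⟩ := count (by omega) 𝓑 c hc hkill
    refine ⟨h1, ?_⟩
    obtain ⟨P, hP⟩ := hne (fun S => (c Sᶜ)ᶜ) (by
      intro S
      rw [card_compl, hc, Fintype.card_fin]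
      omega) (by
      intro σ A A' hA hA' e1 e2
      have hcompl : ∀ S T : Finset (Fin r), S.image σ = Tᶜ → (Sᶜ).image σ = T := by
        intro S T h
        have h5 : (Sᶜ).image σ = (S.image σ)ᶜ := by
          ext y
          simp only [mem_image, mem_compl]
          constructor
          · rintro ⟨x, hx, rfl⟩ ⟨z, hz, hzx⟩
            exact hx (σ.injective hzx ▸ hz)
          · intro hy
            exact ⟨σ.symm y, fun hx => hy ⟨σ.symm y, hx, by simp⟩, by simp⟩
        rw [h5, h, compl_compl]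
      have h6 := h2 σ Aᶜ A'ᶜ (by rw [card_compl, hA, Fintype.card_fin])
        (by rw [card_compl, hA', Fintype.card_fin]) (hcompl _ _ e1) (hcompl _ _ e2)
      exact compl_injective h6)
    refine ⟨Pᶜ, fun A hA => ?_⟩
    have h7 := hP Aᶜ (by rw [card_compl, hA, Fintype.card_fin]; omega)
    simp only [compl_compl] at h7
    rw [← h7, compl_compl]

theorem edge_two {r : ℕ} (hr : 5 ≤ r) : EdgeProp r 2 ∧ EdgeProp r (r - 2) :=
  edge_of_rigid (by omega) (rigid_two hr)

end Pool.Agent.P8H23.OR
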